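import Mathlib

set_option autoImplicit false

namespace Pool.Agent.X312.FF

open Filter Topology Finset

noncomputable section

/-- the part of the sum of the positive values of an arithmetic progression -/
def tri (b a : ℝ) (n : ℕ) : ℝ := ∑ k ∈ range n, max 0 (a - b * k)

theorem step_le {b u : ℝ} (hb : 0 < b) :
    (max 0 u) ^ 2 / (2 * b) - (max 0 (u - b)) ^ 2 / (2 * b) ≤ max 0 u := by
  rw [← sub_div, div_le_iff₀ (by positivity)]
  rcases le_total u 0 with h | h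
  · rw [max_eq_left h, max_eq_left (by linarith : u - b ≤ 0)]; norm_num
  · rw [max_eq_right h]
    rcases le_total (u - b) 0 with h' | h'
    · rw [max_eq_left h']; nlinarith
    · rw [max_eq_right h']; nlinarith

theorem le_step {b u : ℝ} (hb : 0 < b) :
    max 0 u ≤ (max 0 u) ^ 2 / (2 * b) - (max 0 (u - b)) ^ 2 / (2 * b) + b / 2 := by
  have h2 : (max 0 u) ^ 2 / (2 * b) - (max 0 (u - b)) ^ 2 / (2 * b) + b / 2 =
      ((max 0 u) ^ 2 - (max 0 (u - b)) ^ 2 + b ^ 2) / (2 * b) := by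
    field_simp
  rw [h2, le_div_iff₀ (by positivity)]
  rcases le_total u 0 with h | h
  · rw [max_eq_left h, max_eq_left (by linarith : u - b ≤ 0)]; nlinarith
  · rw [max_eq_right h]
    rcases le_total (u - b) 0 with h' | h'
    · rw [max_eq_left h']; nlinarith [sq_nonneg (u - b)]
    · rw [max_eq_right h']; nlinarith

theorem tel {b a : ℝ} (n : ℕ) :
    ∑ k ∈ range n, ((max 0 (a - b * k)) ^ 2 / (2 * b) - (max 0 (a - b * k - b)) ^ 2 / (2 * b)) =
      (max 0 a) ^ 2 / (2 * b) - (max 0 (a - b * n)) ^ 2 / (2 * b) := by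
  have := Finset.sum_range_sub' (fun k : ℕ => (max 0 (a - b * k)) ^ 2 / (2 * b)) n
  simp only [Nat.cast_zero, mul_zero, sub_zero] at this
  rw [← this]
  refine Finset.sum_congr rfl fun k _ => ?_
  push_cast
  ring_nf

theorem tri_lower {b a : ℝ} {n : ℕ} (hb : 0 < b) (hn : a ≤ b * n) :
    (max 0 a) ^ 2 / (2 * b) ≤ tri b a n := by
  have h1 := tel (b := b) (a := a) n
  rw [max_eq_left (by linarith : a - b * n ≤ 0)] at h1
  have h2 : (max 0 a) ^ 2 / (2 * b) = ∑ k ∈ range n,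
      ((max 0 (a - b * k)) ^ 2 / (2 * b) - (max 0 (a - b * k - b)) ^ 2 / (2 * b)) := by
    rw [h1]; norm_num
  rw [h2]
  exact Finset.sum_le_sum fun k _ => step_le hb

theorem tri_upper {b a : ℝ} {n : ℕ} (hb : 0 < b) :
    tri b a n ≤ (max 0 a) ^ 2 / (2 * b) + n * (b / 2) := by
  have h1 := tel (b := b) (a := a) n
  calc tri b a n ≤ ∑ k ∈ range n, ((max 0 (a - b * k)) ^ 2 / (2 * b) -
        (max 0 (a - b * k - b)) ^ 2 / (2 * b) + b / 2) := Finset.sum_le_sum fun k _ => le_step hb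
    _ = (max 0 a) ^ 2 / (2 * b) - (max 0 (a - b * n)) ^ 2 / (2 * b) + n * (b / 2) := by
        rw [Finset.sum_add_distrib, h1]; simp
    _ ≤ _ := by
        have : 0 ≤ (max 0 (a - b * n)) ^ 2 / (2 * b) := by positivity
        linarith

/-- the pairs `(k, q)` with `16 k + 2 q ≤ N` and `P k q` -/
def box (P : ℕ → ℕ → Prop) (N : ℕ) : Set (ℕ × ℕ) := {x | 16 * x.1 + 2 * x.2 ≤ N ∧ P x.1 x.2}

theorem box_finite (P : ℕ → ℕ → Prop) (N : ℕ) : (box P N).Finite := by
  refine ((Set.finite_Iic N).prod (Set.finite_Iic N)).subset ?_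
  rintro ⟨k, q⟩ ⟨h, -⟩
  simp only [Set.mem_prod, Set.mem_Iic] at h ⊢
  omega

/-- the number of the pairs -/
def cnt (P : ℕ → ℕ → Prop) (N : ℕ) : ℕ := (box P N).ncard

theorem cnt_eq (g : ℕ → ℕ) (N : ℕ) :
    cnt (fun k q => g k ≤ q) N = ∑ k ∈ range (N / 16 + 1), ((N - 16 * k) / 2 + 1 - g k) := by
  classical
  have h1 : box (fun k q => g k ≤ q) N =
      ↑((range (N / 16 + 1)).sigma (fun k => Finset.Icc (g k) ((N - 16 * k) / 2)) |>.map
        (Equiv.sigmaEquivProd ℕ ℕ).toEmbedding) := by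
    ext ⟨k, q⟩
    simp only [box, Set.mem_ofPred_eq, Finset.coe_map, Equiv.coe_toEmbedding, Set.mem_image,
      Finset.mem_coe, Finset.mem_sigma, Finset.mem_range, Finset.mem_Icc]
    constructor
    · rintro ⟨h, h'⟩
      refine ⟨⟨k, q⟩, ⟨?_, h', ?_⟩, rfl⟩
      · show k < N / 16 + 1
        omega
      · show q ≤ (N - 16 * k) / 2
        omega
    · rintro ⟨⟨k', q'⟩, ⟨h2, h3, h4⟩, h5⟩
      simp only [Equiv.sigmaEquivProd, Equiv.coe_fn_mk, Prod.mk.injEq] at h5
      obtain ⟨rfl, rfl⟩ := h5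
      have h2' : k' < N / 16 + 1 := h2
      have h4' : q' ≤ (N - 16 * k') / 2 := h4
      exact ⟨by omega, h3⟩
  unfold cnt
  rw [h1, Set.ncard_coe_finset, Finset.card_map, Finset.card_sigma]
  refine Finset.sum_congr rfl fun k _ => ?_
  rw [Nat.card_Icc]

theorem term_bound (N k G : ℕ) (hk : 16 * k ≤ N) :
    max 0 ((N : ℝ) / 2 - 8 * k - G) - 1 ≤ (((N - 16 * k) / 2 + 1 - G : ℕ) : ℝ) ∧
    (((N - 16 * k) / 2 + 1 - G : ℕ) : ℝ) ≤ max 0 ((N : ℝ) / 2 - 8 * k - G) + 1 := by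
  obtain ⟨m, hm⟩ : ∃ m, m = (N - 16 * k) / 2 := ⟨_, rfl⟩
  rw [← hm]
  have h1 : 2 * m + 16 * k ≤ N := by omega
  have h2 : N ≤ 2 * m + 1 + 16 * k := by omega
  have h1' : 2 * (m : ℝ) + 16 * k ≤ N := by exact_mod_cast h1
  have h2' : (N : ℝ) ≤ 2 * m + 1 + 16 * k := by exact_mod_cast h2
  rcases le_total G (m + 1) with h | h
  · have h3 : ((m + 1 - G : ℕ) : ℝ) = m + 1 - G := by
      rw [Nat.cast_sub h]; push_cast; ring
    have hG : (G : ℝ) ≤ m + 1 := by exact_mod_cast h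
    rw [h3]
    constructor
    · rcases le_total 0 ((N : ℝ) / 2 - 8 * k - G) with h4 | h4
      · rw [max_eq_right h4]; linarith
      · rw [max_eq_left h4]; linarith
    · have := le_max_right 0 ((N : ℝ) / 2 - 8 * k - G)
      linarith
  · have h3 : (m + 1 - G : ℕ) = 0 := by omega
    have hG : (m : ℝ) + 1 ≤ G := by exact_mod_cast h
    rw [h3]
    constructor
    · have : max 0 ((N : ℝ) / 2 - 8 * k - G) ≤ 1 := max_le (by norm_num) (by linarith)
      push_cast
      linarith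
    · have := le_max_left 0 ((N : ℝ) / 2 - 8 * k - G)
      push_cast
      linarith

/-- the number of terms is at most `N / 16 + 1` -/
theorem cnt_bound (g : ℕ → ℕ) (N : ℕ) :
    |(cnt (fun k q => g k ≤ q) N : ℝ) -
      ∑ k ∈ range (N / 16 + 1), max 0 ((N : ℝ) / 2 - 8 * k - g k)| ≤ (N / 16 + 1 : ℕ) := by
  rw [cnt_eq, Nat.cast_sum, ← Finset.sum_sub_distrib]
  refine (Finset.abs_sum_le_sum_abs _ _).trans ?_
  calc _ ≤ ∑ k ∈ range (N / 16 + 1), (1 : ℝ) := by
        refine Finset.sum_le_sum fun k hk => ?_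
        have h := term_bound N k (g k) (by rw [Finset.mem_range] at hk; omega)
        rw [abs_le]
        constructor <;> linarith [h.1, h.2]
    _ = _ := by simp

/-- bounds of a sequence with `g k / k → α` -/
theorem exists_const {g : ℕ → ℕ} {α : ℝ} (h : Tendsto (fun k : ℕ => (g k : ℝ) / k) atTop (𝓝 α))
    {ε : ℝ} (hε : 0 < ε) : ∃ C : ℝ, 0 ≤ C ∧ ∀ k : ℕ,
      (g k : ℝ) ≤ (α + ε) * k + C ∧ (α - ε) * k - C ≤ g k := by
  have h1 := h.eventually (Metric.ball_mem_nhds α hε)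
  obtain ⟨K, hK⟩ := eventually_atTop.1 h1
  refine ⟨∑ k ∈ range (K + 1), ((g k : ℝ) + |α| * k + ε * k), ?_, ?_⟩
  · exact Finset.sum_nonneg fun k _ => by positivity
  · intro k
    have hC : (0 : ℝ) ≤ ∑ k ∈ range (K + 1), ((g k : ℝ) + |α| * k + ε * k) :=
      Finset.sum_nonneg fun k _ => by positivity
    rcases Nat.lt_or_ge k (K + 1) with hk | hk
    · have h2 : ((g k : ℝ) + |α| * k + ε * k) ≤
          ∑ k ∈ range (K + 1), ((g k : ℝ) + |α| * k + ε * k) :=
        Finset.single_le_sum (f := fun k : ℕ => ((g k : ℝ) + |α| * k + ε * k))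
          (fun i _ => by positivity) (Finset.mem_range.2 hk)
      have h3 : -(|α| * k) ≤ α * k := by
        rw [← neg_mul]; exact mul_le_mul_of_nonneg_right (neg_abs_le α) (by positivity)
      have h4 : α * k ≤ |α| * k := mul_le_mul_of_nonneg_right (le_abs_self α) (by positivity)
      have h5 : (0 : ℝ) ≤ ε * k := by positivity
      have h6 : (0 : ℝ) ≤ g k := by positivity
      constructor <;> nlinarith
    · have hk0 : (0 : ℝ) < k := by
        have : 0 < k := by omega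
        exact_mod_cast this
      have h2 := hK k (by omega)
      rw [Real.dist_eq, abs_lt] at h2
      have h3 : α - ε < (g k : ℝ) / k := by linarith [h2.1]
      have h4 : (g k : ℝ) / k < α + ε := by linarith [h2.2]
      rw [lt_div_iff₀ hk0] at h3
      rw [div_lt_iff₀ hk0] at h4
      constructor <;> linarith

theorem sum_lower {g : ℕ → ℕ} {β C : ℝ} (hβ : 0 ≤ β) (hC : 0 ≤ C)
    (h : ∀ k : ℕ, (g k : ℝ) ≤ β * k + C) (N : ℕ) :
    (max 0 ((N : ℝ) / 2 - C)) ^ 2 / (2 * (8 + β)) ≤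
      ∑ k ∈ range (N / 16 + 1), max 0 ((N : ℝ) / 2 - 8 * k - g k) := by
  have h1 : (N : ℝ) / 16 < ((N / 16 + 1 : ℕ) : ℝ) := by
    have : N < 16 * (N / 16 + 1) := by omega
    have h' : (N : ℝ) < 16 * ((N / 16 + 1 : ℕ) : ℝ) := by exact_mod_cast this
    linarith
  have h2 : (N : ℝ) / 2 - C ≤ (8 + β) * ((N / 16 + 1 : ℕ) : ℝ) := by
    have h3 : (0 : ℝ) ≤ ((N / 16 + 1 : ℕ) : ℝ) := by positivity
    nlinarith
  refine (tri_lower (by linarith) h2).trans (Finset.sum_le_sum fun k _ => ?_)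
  exact max_le_max le_rfl (by linarith [h k])

theorem sum_upper {g : ℕ → ℕ} {β C : ℝ} (hβ : 0 < 8 + β)
    (h : ∀ k : ℕ, β * k - C ≤ (g k : ℝ)) (N : ℕ) :
    ∑ k ∈ range (N / 16 + 1), max 0 ((N : ℝ) / 2 - 8 * k - g k) ≤
      (max 0 ((N : ℝ) / 2 + C)) ^ 2 / (2 * (8 + β)) +
        ((N / 16 + 1 : ℕ) : ℝ) * ((8 + β) / 2) := by
  refine le_trans (Finset.sum_le_sum fun k _ => ?_) (tri_upper hβ)
  exact max_le_max le_rfl (by linarith [h k])

/-- the number of pairs above the graph of `g` -/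
theorem cnt_tendsto {g : ℕ → ℕ} {α : ℝ} (hα : 0 ≤ α)
    (h : Tendsto (fun k : ℕ => (g k : ℝ) / k) atTop (𝓝 α)) :
    Tendsto (fun N : ℕ => (cnt (fun k q => g k ≤ q) N : ℝ) / (N : ℝ) ^ 2) atTop
      (𝓝 (1 / (8 * (8 + α)))) := by
  have hN : Tendsto (fun N : ℕ => (N : ℝ)) atTop atTop := tendsto_natCast_atTop_atTop
  have hinv : Tendsto (fun N : ℕ => (1 : ℝ) / N) atTop (𝓝 0) := tendsto_one_div_atTop_nhds_zero_nat
  rw [tendsto_order]
  constructor
  · intro L hL
    obtain ⟨ε, hε, hLε⟩ : ∃ ε : ℝ, 0 < ε ∧ L < 1 / (8 * (8 + (α + ε))) := by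
      have hc : Tendsto (fun ε : ℝ => 1 / (8 * (8 + (α + ε)))) (𝓝[>] 0)
          (𝓝 (1 / (8 * (8 + (α + 0))))) := by
        apply Tendsto.mono_left _ nhdsWithin_le_nhds
        apply ContinuousAt.tendsto
        apply ContinuousAt.div₀ continuousAt_const (by fun_prop) (by positivity)
      rw [add_zero] at hc
      obtain ⟨ε, h1, h2⟩ := ((hc.eventually (lt_mem_nhds hL)).and self_mem_nhdsWithin).exists
      exact ⟨ε, h2, h1⟩
    obtain ⟨C, hC, hb⟩ := exists_const h hε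
    have key : Tendsto (fun N : ℕ => (1 / 2 - C * (1 / (N : ℝ))) ^ 2 / (2 * (8 + (α + ε))) -
        2 * (1 / (N : ℝ))) atTop (𝓝 ((1 / 2 - C * 0) ^ 2 / (2 * (8 + (α + ε))) - 2 * 0)) := by
      apply Tendsto.sub
      · apply Tendsto.div_const
        exact (tendsto_const_nhds.sub (hinv.const_mul C)).pow 2
      · exact hinv.const_mul 2
    have e1 : (1 / 2 - C * 0) ^ 2 / (2 * (8 + (α + ε))) - 2 * 0 = 1 / (8 * (8 + (α + ε))) := by
      rw [mul_zero, sub_zero, mul_zero, sub_zero]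
      have : (8 + (α + ε)) ≠ 0 := by positivity
      field_simp
      norm_num
    rw [e1] at key
    filter_upwards [key.eventually (lt_mem_nhds hLε), eventually_ge_atTop 1,
      hN.eventually (eventually_ge_atTop (2 * C))] with N h1 h2 h3
    have hN0 : (0 : ℝ) < N := by exact_mod_cast h2
    refine h1.trans_le ?_
    rw [le_div_iff₀ (by positivity)]
    have h4 := sum_lower (g := g) (by positivity) hC (fun k => (hb k).1) N
    have h5 := (abs_le.1 (cnt_bound g N)).1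
    rw [max_eq_right (by linarith)] at h4
    have h6 : ((N / 16 + 1 : ℕ) : ℝ) ≤ 2 * N := by
      have : N / 16 + 1 ≤ 2 * N := by omega
      exact_mod_cast this
    have h7 : ((1 / 2 - C * (1 / (N : ℝ))) ^ 2 / (2 * (8 + (α + ε))) -
        2 * (1 / (N : ℝ))) * (N : ℝ) ^ 2 =
        ((N : ℝ) / 2 - C) ^ 2 / (2 * (8 + (α + ε))) - 2 * N := by
      have : (8 + (α + ε)) ≠ 0 := by positivity
      field_simp
    rw [h7]
    linarith
  · intro U hU
    obtain ⟨ε, hε, hε8, hUε⟩ : ∃ ε : ℝ, 0 < ε ∧ ε < 8 ∧ 1 / (8 * (8 + (α - ε))) < U := by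
      have hc : Tendsto (fun ε : ℝ => 1 / (8 * (8 + (α - ε)))) (𝓝[>] 0)
          (𝓝 (1 / (8 * (8 + (α - 0))))) := by
        apply Tendsto.mono_left _ nhdsWithin_le_nhds
        apply ContinuousAt.tendsto
        apply ContinuousAt.div₀ continuousAt_const (by fun_prop)
        rw [sub_zero]; positivity
      rw [sub_zero] at hc
      have h8 : ∀ᶠ ε : ℝ in 𝓝[>] 0, ε < 8 :=
        nhdsWithin_le_nhds (gt_mem_nhds (by norm_num))
      obtain ⟨ε, ⟨h1, h2⟩, h3⟩ :=
        (((hc.eventually (gt_mem_nhds hU)).and h8).and self_mem_nhdsWithin).exists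
      exact ⟨ε, h3, h2, h1⟩
    obtain ⟨C, hC, hb⟩ := exists_const h hε
    have hpos : 0 < 8 + (α - ε) := by linarith
    have key : Tendsto (fun N : ℕ => (1 / 2 + C * (1 / (N : ℝ))) ^ 2 / (2 * (8 + (α - ε))) +
        (8 + (α - ε) + 2) * (1 / (N : ℝ))) atTop
        (𝓝 ((1 / 2 + C * 0) ^ 2 / (2 * (8 + (α - ε))) + (8 + (α - ε) + 2) * 0)) := by
      apply Tendsto.add
      · apply Tendsto.div_const
        exact (tendsto_const_nhds.add (hinv.const_mul C)).pow 2
      · exact hinv.const_mul _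
    have e1 : (1 / 2 + C * 0) ^ 2 / (2 * (8 + (α - ε))) + (8 + (α - ε) + 2) * 0 =
        1 / (8 * (8 + (α - ε))) := by
      rw [mul_zero, add_zero, mul_zero, add_zero]
      field_simp
      norm_num
    rw [e1] at key
    filter_upwards [key.eventually (gt_mem_nhds hUε), eventually_ge_atTop 1] with N h1 h2
    have hN0 : (0 : ℝ) < N := by exact_mod_cast h2
    refine lt_of_le_of_lt ?_ h1
    rw [div_le_iff₀ (by positivity)]
    have h4 := sum_upper (g := g) hpos (fun k => (hb k).2) N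
    have h5 := (abs_le.1 (cnt_bound g N)).2
    rw [max_eq_right (by positivity)] at h4
    have h6 : ((N / 16 + 1 : ℕ) : ℝ) ≤ 2 * N := by
      have : N / 16 + 1 ≤ 2 * N := by omega
      exact_mod_cast this
    have h7 : ((1 / 2 + C * (1 / (N : ℝ))) ^ 2 / (2 * (8 + (α - ε))) +
        (8 + (α - ε) + 2) * (1 / (N : ℝ))) * (N : ℝ) ^ 2 =
        ((N : ℝ) / 2 + C) ^ 2 / (2 * (8 + (α - ε))) + (8 + (α - ε) + 2) * N := by
      have : (8 + (α - ε)) ≠ 0 := hpos.ne'
      field_simp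
    rw [h7]
    nlinarith

end

end Pool.Agent.X312.FF
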