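import Mathlib

set_option autoImplicit false

namespace Pool.Agent.X312.FF

open Matrix

/-- Isometry of integral bilinear forms, given by Gram matrices: a base change over `ℤ`. -/
def Iso {ι κ : Type} [Fintype ι] [Fintype κ] [DecidableEq ι] [DecidableEq κ]
    (A : Matrix ι ι ℤ) (B : Matrix κ κ ℤ) : Prop :=
  ∃ (U : Matrix ι κ ℤ) (V : Matrix κ ι ℤ), U * V = 1 ∧ V * U = 1 ∧ Uᵀ * A * U = B

/-- The matrix of the form `E_8`. -/
def E8 : Matrix (Fin 8) (Fin 8) ℤ :=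
  !![2, -1, 0, 0, 0, 0, 0, 0;
    -1, 2, -1, 0, 0, 0, 0, 0;
    0, -1, 2, -1, 0, 0, 0, 0;
    0, 0, -1, 2, -1, 0, 0, 0;
    0, 0, 0, -1, 2, -1, 0, -1;
    0, 0, 0, 0, -1, 2, -1, 0;
    0, 0, 0, 0, 0, -1, 2, 0;
    0, 0, 0, 0, -1, 0, 0, 2]

/-- The matrix of the hyperbolic plane `H`. -/
def Hyp : Matrix (Fin 2) (Fin 2) ℤ := !![0, 1; 1, 0]

/-- The matrix of the orthogonal sum of `#ι` copies of `E_8` and `#κ` copies of `H`. -/
def Ev (ι κ : Type) [DecidableEq ι] [DecidableEq κ] :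
    Matrix ((Fin 8 × ι) ⊕ (Fin 2 × κ)) ((Fin 8 × ι) ⊕ (Fin 2 × κ)) ℤ :=
  fromBlocks (blockDiagonal fun _ => E8) 0 0 (blockDiagonal fun _ => Hyp)

section

variable {ι κ μ ν : Type} [Fintype ι] [Fintype κ] [Fintype μ] [Fintype ν]
  [DecidableEq ι] [DecidableEq κ] [DecidableEq μ] [DecidableEq ν]

theorem Iso.symm {A : Matrix ι ι ℤ} {B : Matrix κ κ ℤ} (h : Iso A B) : Iso B A := by
  obtain ⟨U, V, h1, h2, h3⟩ := h
  refine ⟨V, U, h2, h1, ?_⟩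
  rw [← h3]
  have h4 : Vᵀ * Uᵀ = 1 := by rw [← transpose_mul, h1, transpose_one]
  calc Vᵀ * (Uᵀ * A * U) * V = (Vᵀ * Uᵀ) * A * (U * V) := by simp only [Matrix.mul_assoc]
    _ = A := by rw [h4, h1, Matrix.one_mul, Matrix.mul_one]

theorem Iso.trans {A : Matrix ι ι ℤ} {B : Matrix κ κ ℤ} {C : Matrix μ μ ℤ} (h : Iso A B)
    (h' : Iso B C) : Iso A C := by
  obtain ⟨U, V, h1, h2, h3⟩ := h
  obtain ⟨U', V', h1', h2', h3'⟩ := h'
  refine ⟨U * U', V' * V, ?_, ?_, ?_⟩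
  · calc U * U' * (V' * V) = U * (U' * V') * V := by simp only [Matrix.mul_assoc]
      _ = 1 := by rw [h1', Matrix.mul_one, h1]
  · calc V' * V * (U * U') = V' * (V * U) * U' := by simp only [Matrix.mul_assoc]
      _ = 1 := by rw [h2, Matrix.mul_one, h2']
  · rw [transpose_mul]
    calc U'ᵀ * Uᵀ * A * (U * U') = U'ᵀ * (Uᵀ * A * U) * U' := by simp only [Matrix.mul_assoc]
      _ = C := by rw [h3, h3']

theorem Iso.sum {A : Matrix ι ι ℤ} {B : Matrix κ κ ℤ} {C : Matrix μ μ ℤ} {D : Matrix ν ν ℤ}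
    (h : Iso A B) (h' : Iso C D) : Iso (fromBlocks A 0 0 C) (fromBlocks B 0 0 D) := by
  obtain ⟨U, V, h1, h2, h3⟩ := h
  obtain ⟨U', V', h1', h2', h3'⟩ := h'
  refine ⟨fromBlocks U 0 0 U', fromBlocks V 0 0 V', ?_, ?_, ?_⟩
  · rw [fromBlocks_multiply, ← fromBlocks_one]; simp [h1, h1']
  · rw [fromBlocks_multiply, ← fromBlocks_one]; simp [h2, h2']
  · rw [fromBlocks_transpose, fromBlocks_multiply, fromBlocks_multiply]
    simp [h3, h3']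

theorem Iso.of_equiv {A : Matrix ι ι ℤ} {B : Matrix κ κ ℤ} (e : ι ≃ κ)
    (h : ∀ i j, A i j = B (e i) (e j)) : Iso A B := by
  have hA : A = B.submatrix e e := by ext i j; exact h i j
  refine ⟨(1 : Matrix ι ι ℤ).submatrix id e.symm, (1 : Matrix ι ι ℤ).submatrix e.symm id, ?_, ?_, ?_⟩
  · have := Matrix.submatrix_mul_equiv (1 : Matrix ι ι ℤ) (1 : Matrix ι ι ℤ) id e.symm id
    rw [this, Matrix.one_mul, Matrix.submatrix_id_id]
  · rw [← Matrix.submatrix_mul _ _ e.symm id e.symm Function.bijective_id, Matrix.one_mul]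
    exact Matrix.submatrix_one_equiv e.symm
  · rw [transpose_submatrix, transpose_one]
    have h1 : A = A.submatrix id id := (Matrix.submatrix_id_id A).symm
    rw [h1, ← Matrix.submatrix_mul _ _ e.symm id id Function.bijective_id, Matrix.one_mul,
      ← Matrix.submatrix_mul _ _ e.symm id e.symm Function.bijective_id, Matrix.mul_one, hA]
    ext i j
    simp

end

section

variable {ι κ ι' κ' : Type} [Fintype ι] [Fintype κ] [Fintype ι'] [Fintype κ']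
  [DecidableEq ι] [DecidableEq κ] [DecidableEq ι'] [DecidableEq κ']

theorem Ev_congr (e : ι ≃ ι') (f : κ ≃ κ') : Iso (Ev ι κ) (Ev ι' κ') := by
  refine Iso.of_equiv (Equiv.sumCongr (Equiv.prodCongr (Equiv.refl _) e)
    (Equiv.prodCongr (Equiv.refl _) f)) ?_
  rintro (⟨a, i⟩ | ⟨a, i⟩) (⟨b, j⟩ | ⟨b, j⟩) <;>
    simp [Ev, blockDiagonal_apply]

/-- the bijection of the bases in `Ev_sum` -/
def sumEquiv (ι κ ι' κ' : Type) :
    (((Fin 8 × ι) ⊕ (Fin 2 × κ)) ⊕ ((Fin 8 × ι') ⊕ (Fin 2 × κ'))) ≃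
      ((Fin 8 × (ι ⊕ ι')) ⊕ (Fin 2 × (κ ⊕ κ'))) :=
  (Equiv.sumSumSumComm _ _ _ _).trans
    (Equiv.sumCongr (Equiv.prodSumDistrib _ _ _).symm (Equiv.prodSumDistrib _ _ _).symm)

theorem Ev_sum : Iso (fromBlocks (Ev ι κ) 0 0 (Ev ι' κ')) (Ev (ι ⊕ ι') (κ ⊕ κ')) := by
  refine Iso.of_equiv (sumEquiv ι κ ι' κ') ?_
  rintro ((⟨a, i⟩ | ⟨a, i⟩) | (⟨a, i⟩ | ⟨a, i⟩)) ((⟨b, j⟩ | ⟨b, j⟩) | (⟨b, j⟩ | ⟨b, j⟩)) <;>
    simp [Ev, sumEquiv, blockDiagonal_apply]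

end

/-- the bijection of the bases in `Hyp_iso` -/
def hypEquiv : Fin 2 ≃ (Fin 8 × Fin 0) ⊕ (Fin 2 × Fin 1) :=
  (Equiv.prodUnique (Fin 2) (Fin 1)).symm.trans (Equiv.emptySum (Fin 8 × Fin 0) (Fin 2 × Fin 1)).symm

theorem Hyp_iso : Iso Hyp (Ev (Fin 0) (Fin 1)) := by
  refine Iso.of_equiv hypEquiv ?_
  intro i j
  simp [Ev, hypEquiv, blockDiagonal_apply]

theorem zero_iso {n : ℕ} (hn : n = 0) (A : Matrix (Fin n) (Fin n) ℤ) :
    Iso A (Ev (Fin 0) (Fin 0)) := by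
  subst hn
  refine Iso.of_equiv ((Equiv.equivOfIsEmpty _ _)) ?_
  intro i
  exact i.elim0

end Pool.Agent.X312.FF
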